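import Pool.Agent.P8H97.FE.Stm

set_option autoImplicit false

namespace Pool.Agent.P8H89.FE

open Finset Filter
open Pool.Agent.P8H97.FE

/-- the primes up to `N` -/
def PP (N : ℕ) : Finset ℕ := (Icc 1 N).filter Nat.Prime

theorem card_PP (N : ℕ) : (PP N).card = Nat.primeCounting N := by
  rw [Nat.primeCounting, Nat.primeCounting', Nat.count_eq_card_filter_range]
  congr 1
  ext m
  simp only [PP, mem_filter, mem_Icc, mem_range]
  constructor
  · rintro ⟨⟨h1, h2⟩, h3⟩
    exact ⟨by omega, h3⟩
  · rintro ⟨h1, h3⟩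
    exact ⟨⟨h3.one_lt.le, by omega⟩, h3⟩

theorem cheb : ∀ᶠ N : ℕ in atTop, (N : ℝ) / (2 * Real.log N) ≤ (PP N).card := by
  have h1 : ∀ᶠ x : ℝ in atTop, Real.log x ≤ (1 / 100) * x := by
    have := Real.isLittleO_log_id_atTop.bound (show (0 : ℝ) < 1 / 100 by norm_num)
    filter_upwards [this, eventually_ge_atTop 1] with x hx hx1
    simp only [Real.norm_eq_abs, id] at hx
    rw [abs_of_nonneg (Real.log_nonneg hx1), abs_of_nonneg (by linarith)] at hx
    exact hx
  filter_upwards [tendsto_natCast_atTop_atTop.eventually h1, (tendsto_natCast_atTop_atTop.comp (tendsto_add_atTop_nat 1)).eventually h1,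
    eventually_ge_atTop 10] with N h2 h3 hN
  have h4 := Chebyshev.pi_ge N
  rw [card_PP]
  refine le_trans ?_ h4
  have hN' : (10 : ℝ) ≤ N := by exact_mod_cast hN
  have hlog : 0 < Real.log N := Real.log_pos (by linarith)
  rw [div_le_div_iff₀ (by positivity) hlog]
  have h5 : (0.69 : ℝ) < Real.log 2 := by have := Real.log_two_gt_d9; linarith
  have h6 : Real.log ((N : ℝ) + 1) ≤ (1 / 100) * (N + 1) := by
    have := h3
    simp only [Function.comp] at this
    push_cast at this
    exact this
  have h7 : (N : ℝ) / 2 ≤ N * Real.log 2 - Real.log (N + 1) := by nlinarith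
  nlinarith [mul_le_mul_of_nonneg_right h7 hlog.le]

/-- the number of the `t` in `[1, H]` with `x + t` prime -/
def U (H x : ℕ) : ℕ := ((Icc 1 H).filter (fun t => (x + t).Prime)).card

theorem sum_cnt {l : ℕ} (N : ℕ) (H : Fin l → ℕ) :
    ∑ h ∈ box H, cnt N h = ∑ x ∈ PP N, ∏ i, U (H i) x := by
  have h1 : ∀ x, ∏ i, U (H i) x = ((box H).filter (fun h => ∀ i, (x + h i).Prime)).card := by
    intro x
    unfold U
    rw [← Fintype.card_piFinset]
    congr 1
    ext h
    simp only [Fintype.mem_piFinset, mem_filter]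
    exact ⟨fun h => ⟨fun i => (h i).1, fun i => (h i).2⟩, fun h i => ⟨h.1 i, h.2 i⟩⟩
  simp only [h1, cnt, card_filter]
  have h2 : ∀ h : Fin l → ℕ, ∑ m ∈ Icc 1 N, (if m.Prime ∧ ∀ i, (m + h i).Prime then 1 else 0) =
      ∑ m ∈ PP N, if ∀ i, (m + h i).Prime then 1 else 0 := by
    intro h
    rw [PP, sum_filter]
    refine sum_congr rfl fun m _ => ?_
    by_cases hm : m.Prime <;> simp [hm]
  rw [sum_congr rfl fun h _ => h2 h, sum_comm]

/-- few elements with few primes to the right -/
theorem few (N H : ℕ) (hH : 0 < H) (T : ℕ) :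
    ((PP N).filter (fun x => U H x < T)).card ≤ T * (N / H + 1) := by
  classical
  have h1 : ∀ b : ℕ, (((PP N).filter (fun x => U H x < T)).filter (fun x => x / H = b)).card ≤ T := by
    intro b
    set A := ((PP N).filter (fun x => U H x < T)).filter (fun x => x / H = b) with hA
    let f : ℕ → ℕ := fun x => (A.filter (fun p => x < p)).card
    have hf : ∀ x ∈ A, f x < T := by
      intro x hx
      have hx' := hx
      rw [hA, mem_filter, mem_filter] at hx'
      refine lt_of_le_of_lt ?_ hx'.1.2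
      refine card_le_card_of_injOn (fun p => p - x) ?_ ?_
      · intro p hp
        rw [mem_coe, mem_filter] at hp
        have hp' := hp.1
        rw [hA, mem_filter, mem_filter, PP, mem_filter] at hp'
        have h3 : p / H = x / H := by rw [hp'.2, hx'.2]
        have h4 : p - x < H := by
          have := Nat.div_add_mod p H
          have := Nat.div_add_mod x H
          have := Nat.mod_lt p hH
          rw [h3] at *
          omega
        simp only [mem_coe, mem_filter, mem_Icc]
        refine ⟨⟨by omega, by omega⟩, ?_⟩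
        have : x + (p - x) = p := by omega
        rw [this]
        exact hp'.1.1.2
      · intro p hp q hq hpq
        rw [mem_coe, mem_filter] at hp hq
        simp only at hpq
        omega
    have hinj : Set.InjOn f A := by
      have hlt : ∀ x ∈ A, ∀ y ∈ A, x < y → f y < f x := by
        intro x hx y hy hxy
        apply card_lt_card
        rw [ssubset_iff_of_subset]
        · exact ⟨y, mem_filter.2 ⟨hy, hxy⟩, by simp⟩
        · intro p hp
          rw [mem_filter] at hp ⊢
          exact ⟨hp.1, hxy.trans hp.2⟩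
      intro x hx y hy hxy
      rcases lt_trichotomy x y with h | h | h
      · exact absurd hxy (hlt x hx y hy h).ne'
      · exact h
      · exact absurd hxy (hlt y hy x hx h).ne
    calc A.card = (A.image f).card := (card_image_of_injOn hinj).symm
      _ ≤ (range T).card := card_le_card (by
          intro t ht
          obtain ⟨x, hx, rfl⟩ := mem_image.1 ht
          exact mem_range.2 (hf x hx))
      _ = T := card_range T
  have h2 : ∀ x ∈ (PP N).filter (fun x => U H x < T), x / H ∈ range (N / H + 1) := by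
    intro x hx
    rw [mem_filter, PP, mem_filter, mem_Icc] at hx
    exact mem_range.2 (Nat.lt_succ_of_le (Nat.div_le_div_right hx.1.1.2))
  rw [card_eq_sum_card_fiberwise h2]
  calc ∑ b ∈ range (N / H + 1), (((PP N).filter (fun x => U H x < T)).filter (fun x => x / H = b)).card
      ≤ ∑ b ∈ range (N / H + 1), T := sum_le_sum fun b _ => h1 b
    _ = T * (N / H + 1) := by rw [sum_const, card_range, smul_eq_mul, mul_comm]

theorem fewR (N H : ℕ) (hH : 0 < H) (hHN : H ≤ N) (τ : ℝ) (hτ : 1 ≤ τ) :
    (((PP N).filter (fun x => (U H x : ℝ) < τ)).card : ℝ) ≤ 4 * τ * (N / H) := by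
  have h1 : ((PP N).filter (fun x => (U H x : ℝ) < τ)) ⊆ (PP N).filter (fun x => U H x < ⌈τ⌉₊) := by
    intro x hx
    rw [mem_filter] at hx ⊢
    exact ⟨hx.1, Nat.lt_ceil.2 hx.2⟩
  have h2 := (card_le_card h1).trans (few N H hH ⌈τ⌉₊)
  have h3 : (((PP N).filter (fun x => (U H x : ℝ) < τ)).card : ℝ) ≤ ⌈τ⌉₊ * ((N / H : ℕ) + 1) := by
    exact_mod_cast h2
  refine h3.trans ?_
  have h4 : (⌈τ⌉₊ : ℝ) ≤ 2 * τ := by
    have := (Nat.ceil_lt_add_one (by linarith : 0 ≤ τ)).le
    linarith
  have h5 : ((N / H : ℕ) : ℝ) + 1 ≤ 2 * (N / H) := by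
    have h6 : ((N / H : ℕ) : ℝ) ≤ (N : ℝ) / H := Nat.cast_div_le
    have h7 : (1 : ℝ) ≤ (N : ℝ) / H := by
      rw [one_le_div (by exact_mod_cast hH)]
      exact_mod_cast hHN
    linarith
  calc (⌈τ⌉₊ : ℝ) * ((N / H : ℕ) + 1) ≤ (2 * τ) * (2 * (N / H)) := by
        apply mul_le_mul h4 h5 (by positivity) (by linarith)
    _ = 4 * τ * (N / H) := by ring

theorem low : S_LOW := by
  intro l
  set ε : ℝ := 1 / (32 * (l + 1)) with hε
  have hεpos : 0 < ε := by positivity
  refine ⟨ε ^ l / 4, by positivity, ?_⟩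
  have hlog : ∀ᶠ N : ℕ in atTop, 1 / ε ≤ Real.log N :=
    (Real.tendsto_log_atTop.comp tendsto_natCast_atTop_atTop).eventually_ge_atTop _
  filter_upwards [cheb, hlog, eventually_ge_atTop 3] with N hch hL hN3 H hH
  have hN3' : (3 : ℝ) ≤ N := by exact_mod_cast hN3
  set L := Real.log N with hLdef
  have hLpos : 0 < L := Real.log_pos (by linarith)
  have hεL : 1 ≤ ε * L := by
    rw [div_le_iff₀ hεpos] at hL
    linarith
  have hHpos : ∀ i, 0 < H i := by
    intro i
    have h1 := (hH i).1
    have : (0 : ℝ) < H i := lt_of_lt_of_le (by positivity) h1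
    exact_mod_cast this
  have hτ : ∀ i, 1 ≤ ε * H i / L := by
    intro i
    rw [le_div_iff₀ hLpos, one_mul]
    have h1 := (hH i).1
    calc L ≤ (ε * L) * L := by nlinarith
      _ = ε * L ^ 2 := by ring
      _ ≤ ε * H i := mul_le_mul_of_nonneg_left h1 hεpos.le
  let Bad : Fin l → Finset ℕ := fun i => (PP N).filter (fun x => (U (H i) x : ℝ) < ε * H i / L)
  have hbad : ∀ i, ((Bad i).card : ℝ) ≤ 4 * ε * (N / L) := by
    intro i
    refine (fewR N (H i) (hHpos i) (hH i).2 _ (hτ i)).trans (le_of_eq ?_)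
    have : (H i : ℝ) ≠ 0 := by exact_mod_cast (hHpos i).ne'
    field_simp
  set G := (PP N).filter (fun x => ∀ i, ε * H i / L ≤ U (H i) x) with hG
  have hcard : (N : ℝ) / (4 * L) ≤ G.card := by
    have h1 : PP N ⊆ G ∪ univ.biUnion Bad := by
      intro x hx
      by_cases h : ∀ i, ε * H i / L ≤ U (H i) x
      · exact mem_union_left _ (mem_filter.2 ⟨hx, h⟩)
      · push Not at h
        obtain ⟨i, hi⟩ := h
        exact mem_union_right _ (mem_biUnion.2 ⟨i, mem_univ _, mem_filter.2 ⟨hx, hi⟩⟩)
    have h2 : ((PP N).card : ℝ) ≤ G.card + ∑ i, ((Bad i).card : ℝ) := by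
      have h3 := (card_le_card h1).trans (card_union_le _ _)
      have h4 := h3.trans (Nat.add_le_add_left (card_biUnion_le (s := univ) (t := Bad)) _)
      exact_mod_cast h4
    have h5 : ∑ i, ((Bad i).card : ℝ) ≤ N / (4 * L) := by
      calc ∑ i, ((Bad i).card : ℝ) ≤ ∑ _i : Fin l, 4 * ε * (N / L) := sum_le_sum fun i _ => hbad i
        _ = (l * (4 * ε)) * (N / L) := by
          rw [sum_const, card_univ, Fintype.card_fin, nsmul_eq_mul]; ring
        _ ≤ (1 / 4) * (N / L) := by
          apply mul_le_mul_of_nonneg_right _ (by positivity)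
          rw [hε, mul_one_div, mul_div_assoc', div_le_div_iff₀ (by positivity) (by norm_num)]
          have : (0 : ℝ) ≤ l := Nat.cast_nonneg _
          nlinarith
        _ = N / (4 * L) := by field_simp
    have h6 : (N : ℝ) / (2 * L) = N / (4 * L) + N / (4 * L) := by field_simp; ring
    linarith
  have hsum : (∑ h ∈ box H, (cnt N h : ℝ)) = ∑ x ∈ PP N, ∏ i, (U (H i) x : ℝ) := by
    have := sum_cnt N H
    exact_mod_cast this
  rw [hsum]
  calc ε ^ l / 4 * R l N * ∏ i, (H i : ℝ) = (N / (4 * L)) * ∏ i, (ε * H i / L) := by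
        rw [prod_div_distrib, prod_mul_distrib, prod_const, prod_const, card_univ, Fintype.card_fin]
        unfold R
        rw [← hLdef]
        field_simp
        ring
    _ ≤ G.card * ∏ i, (ε * H i / L) := mul_le_mul_of_nonneg_right hcard
        (prod_nonneg fun i _ => by linarith [hτ i])
    _ = ∑ _x ∈ G, ∏ i, (ε * H i / L) := by rw [sum_const, nsmul_eq_mul]
    _ ≤ ∑ x ∈ G, ∏ i, (U (H i) x : ℝ) := by
        refine sum_le_sum fun x hx => prod_le_prod (fun i _ => by linarith [hτ i]) fun i _ => ?_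
        exact (mem_filter.1 hx).2 i
    _ ≤ ∑ x ∈ PP N, ∏ i, (U (H i) x : ℝ) :=
        sum_le_sum_of_subset_of_nonneg (filter_subset _ _) fun _ _ _ => by positivity

end Pool.Agent.P8H89.FE
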