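import Pool.Agent.P8H97.FE.Stm

set_option autoImplicit false

namespace Pool.Agent.P8H89.FE

open Finset Filter
open Pool.Agent.P8H97.FE
open Pool.Agent.Y851.DK (sg sgn P_SV P_AVG)

theorem exp_sum_le {ι : Type*} (s : Finset ι) (a : ι → ℝ) (ha : ∀ i ∈ s, 0 ≤ a i) (K : ℝ)
    (hK : (s.card : ℝ) ≤ K) : Real.exp (∑ i ∈ s, a i) ≤ 1 + ∑ i ∈ s, Real.exp (K * a i) := by
  rcases s.eq_empty_or_nonempty with h | h
  · subst h
    simp
  · obtain ⟨m, hm, hmax⟩ := s.exists_max_image a h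
    have h1 : ∑ i ∈ s, a i ≤ K * a m := by
      calc ∑ i ∈ s, a i ≤ ∑ i ∈ s, a m := sum_le_sum fun i hi => hmax i hi
        _ = s.card * a m := by rw [sum_const, nsmul_eq_mul]
        _ ≤ K * a m := mul_le_mul_of_nonneg_right hK (ha m hm)
    have h2 : Real.exp (K * a m) ≤ ∑ i ∈ s, Real.exp (K * a i) :=
      single_le_sum (f := fun i => Real.exp (K * a i)) (fun i _ => (Real.exp_pos _).le) hm
    have h3 := Real.exp_le_exp.2 h1
    linarith

/-- averaging over one coordinate -/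
theorem fib {l : ℕ} (H : Fin l → ℕ) (i : Fin l) (hH : 0 < H i) (f : (Fin l → ℕ) → ℝ) (B : ℝ)
    (h : ∀ g ∈ box H, ∑ x ∈ Icc 1 (H i), f (Function.update g i x) ≤ B * H i) :
    ∑ g ∈ box H, f g ≤ B * ∏ i, (H i : ℝ) := by
  have h1 : ∑ q ∈ box H ×ˢ Icc 1 (H i), f (Function.update q.1 i q.2) =
      ∑ q ∈ box H ×ˢ Icc 1 (H i), f q.1 := by
    refine sum_nbij' (fun q => (Function.update q.1 i q.2, q.1 i))
      (fun q => (Function.update q.1 i q.2, q.1 i)) ?_ ?_ ?_ ?_ ?_
    · rintro ⟨g, x⟩ hq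
      simp only [mem_product, Fintype.mem_piFinset] at hq ⊢
      refine ⟨fun j => ?_, hq.1 i⟩
      rcases eq_or_ne j i with rfl | hj
      · simpa using hq.2
      · rw [Function.update_of_ne hj]; exact hq.1 j
    · rintro ⟨g, x⟩ hq
      simp only [mem_product, Fintype.mem_piFinset] at hq ⊢
      refine ⟨fun j => ?_, hq.1 i⟩
      rcases eq_or_ne j i with rfl | hj
      · simpa using hq.2
      · rw [Function.update_of_ne hj]; exact hq.1 j
    · rintro ⟨g, x⟩ _
      simp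
    · rintro ⟨g, x⟩ _
      simp
    · rintro ⟨g, x⟩ _
      simp
  rw [sum_product, sum_product] at h1
  have h2 : ∑ g ∈ box H, ∑ x ∈ Icc 1 (H i), f (g, x).1 = (H i : ℝ) * ∑ g ∈ box H, f g := by
    rw [mul_sum]
    refine sum_congr rfl fun g _ => ?_
    simp
  have h3 : ∑ g ∈ box H, ∑ x ∈ Icc 1 (H i), f (Function.update (g, x).1 i (g, x).2) ≤
      ∑ g ∈ box H, B * H i := sum_le_sum fun g hg => h g hg
  rw [h1, h2, sum_const, nsmul_eq_mul, Fintype.card_piFinset] at h3
  have hpos : (0 : ℝ) < H i := by exact_mod_cast hH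
  have h4 : (H i : ℝ) * ∑ g ∈ box H, f g ≤ (H i : ℝ) * (B * ∏ i, (H i : ℝ)) := by
    refine h3.trans (le_of_eq ?_)
    simp only [Nat.card_Icc, Nat.add_sub_cancel]
    push_cast
    ring
  exact le_of_mul_le_mul_left h4 hpos

theorem sgn_one (m : ℕ) : sgn 1 m = sg m := by
  unfold sgn sg
  congr 1
  rw [filter_true_of_mem]
  intro p hp h
  have := (Nat.prime_of_mem_primeFactors hp).one_lt
  have := Nat.le_of_dvd one_pos h
  omega

theorem sg_nonneg (m : ℕ) : 0 ≤ sg m := sum_nonneg fun p _ => by positivity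

theorem expS {l : ℕ} (c : ℝ) (hc : 0 < c) (h : Fin l → ℕ) :
    Real.exp (c * S h) ≤ 1 + ∑ i, Real.exp (2 * c * (l + l * l + 1) * sg (h i)) +
      ∑ i, ∑ j, Real.exp (2 * c * (l + l * l + 1) * sg ((h j : ℤ) - (h i : ℤ)).natAbs) := by
  let a : Fin l ⊕ (Fin l × Fin l) → ℝ := Sum.elim (fun i => 2 * c * sg (h i))
    (fun q => c * sg ((h q.2 : ℤ) - (h q.1 : ℤ)).natAbs)
  have ha : ∀ i ∈ (univ : Finset (Fin l ⊕ (Fin l × Fin l))), 0 ≤ a i := by
    rintro (i | q) _
    · exact mul_nonneg (by positivity) (sg_nonneg _)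
    · exact mul_nonneg hc.le (sg_nonneg _)
  have h1 := exp_sum_le univ a ha (l + l * l + 1) (by
    rw [card_univ, Fintype.card_sum, Fintype.card_prod, Fintype.card_fin]
    push_cast
    linarith)
  have h2 : ∑ i, a i = c * S h := by
    rw [Fintype.sum_sum_type, Fintype.sum_prod_type]
    simp only [a, Sum.elim_inl, Sum.elim_inr]
    unfold S
    simp only [← mul_sum]
    ring
  rw [h2] at h1
  refine h1.trans ?_
  rw [Fintype.sum_sum_type, Fintype.sum_prod_type]
  simp only [a, Sum.elim_inl, Sum.elim_inr]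
  refine le_trans (le_of_eq (add_assoc _ _ _).symm) ?_
  refine add_le_add (add_le_add le_rfl ?_) ?_
  · refine sum_le_sum fun i _ => Real.exp_le_exp.2 (le_of_eq (by ring))
  · refine sum_le_sum fun i _ => sum_le_sum fun j _ => Real.exp_le_exp.2 ?_
    have := sg_nonneg ((h j : ℤ) - (h i : ℤ)).natAbs
    have h3 : 0 ≤ c * (l + l * l + 1) * sg ((h j : ℤ) - (h i : ℤ)).natAbs := by positivity
    linarith

theorem mom : P_AVG → S_MOM := by
  intro hP l c η hc hη
  obtain ⟨C, hC, hX⟩ := hP (2 * c * (l + l * l + 1)) η (by positivity) hη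
  refine ⟨1 + l * C + l * l * C, by nlinarith [Nat.cast_nonneg (α := ℝ) l, mul_nonneg (Nat.cast_nonneg (α := ℝ) l) (Nat.cast_nonneg (α := ℝ) l)], ?_⟩
  filter_upwards [tendsto_natCast_atTop_atTop.eventually hX, eventually_ge_atTop 1] with N hN hN1 H hH
  set K : ℝ := 2 * c * (l + l * l + 1) with hK
  have hN1' : (1 : ℝ) ≤ N := by exact_mod_cast hN1
  have hHpos : ∀ i, 0 < H i := by
    intro i
    have h1 := (hH i).1
    have h2 : (0 : ℝ) < (N : ℝ) ^ η := Real.rpow_pos_of_pos (by linarith) _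
    have : (0 : ℝ) < H i := by linarith
    exact_mod_cast this
  have hcard : ∑ _g ∈ box H, (1 : ℝ) = ∏ i, (H i : ℝ) := by
    rw [sum_const, nsmul_eq_mul, mul_one, Fintype.card_piFinset]
    push_cast [Nat.card_Icc]
    simp
  have hprod : (0 : ℝ) ≤ ∏ i, (H i : ℝ) := prod_nonneg fun i _ => Nat.cast_nonneg _
  have hA : ∀ i, ∑ g ∈ box H, Real.exp (K * sg (g i)) ≤ C * ∏ i, (H i : ℝ) := by
    intro i
    refine fib H i (hHpos i) (fun g => Real.exp (K * sg (g i))) C ?_
    intro g _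
    have h1 := hN (H i) (hH i).1 (Nat.cast_le.2 (hH i).2) 1 0 le_rfl (by push_cast; nlinarith) (by push_cast; positivity)
    refine le_trans (le_of_eq ?_) h1
    refine sum_congr rfl fun x _ => ?_
    rw [Function.update_self, sgn_one]
    congr 3
    simp
  have hB : ∀ i j, ∑ g ∈ box H, Real.exp (K * sg ((g j : ℤ) - (g i : ℤ)).natAbs) ≤ C * ∏ i, (H i : ℝ) := by
    intro i j
    rcases eq_or_ne j i with rfl | hji
    · have : ∀ g ∈ box H, Real.exp (K * sg ((g j : ℤ) - (g j : ℤ)).natAbs) = 1 := by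
        intro g _
        rw [sub_self]
        simp [sg]
      rw [sum_congr rfl this, hcard]
      nlinarith
    · refine fib H i (hHpos i) (fun g => Real.exp (K * sg ((g j : ℤ) - (g i : ℤ)).natAbs)) C ?_
      intro g hg
      have hgj : g j ≤ N := by
        have h2 := (mem_Icc.1 (Fintype.mem_piFinset.1 hg j)).2
        have h3 : H j ≤ N := (hH j).2
        omega
      have hgj' : (g j : ℝ) ≤ (N : ℝ) ^ 2 := by
        have : (g j : ℝ) ≤ N := by exact_mod_cast hgj
        nlinarith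
      have h1 := hN (H i) (hH i).1 (Nat.cast_le.2 (hH i).2) 1 (g j) le_rfl (by push_cast; nlinarith) hgj'
      refine le_trans (le_of_eq ?_) h1
      refine sum_congr rfl fun x _ => ?_
      rw [Function.update_self, sgn_one, Function.update_of_ne hji]
      congr 3
      rw [← Int.natAbs_neg]
      congr 1
      push_cast
      ring
  calc ∑ h ∈ box H, Real.exp (c * S h)
      ≤ ∑ h ∈ box H, (1 + ∑ i, Real.exp (K * sg (h i)) +
        ∑ i, ∑ j, Real.exp (K * sg ((h j : ℤ) - (h i : ℤ)).natAbs)) :=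
        sum_le_sum fun h _ => expS c hc h
    _ = ∑ _h ∈ box H, (1 : ℝ) + ∑ i, ∑ h ∈ box H, Real.exp (K * sg (h i)) +
        ∑ i, ∑ j, ∑ h ∈ box H, Real.exp (K * sg ((h j : ℤ) - (h i : ℤ)).natAbs) := by
        rw [sum_add_distrib, sum_add_distrib, sum_comm]
        congr 1
        rw [sum_comm]
        refine sum_congr rfl fun i _ => ?_
        rw [sum_comm]
    _ ≤ ∏ i, (H i : ℝ) + ∑ _i : Fin l, C * ∏ i, (H i : ℝ) + ∑ _i : Fin l, ∑ _j : Fin l, C * ∏ i, (H i : ℝ) := by
        rw [hcard]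
        exact add_le_add (add_le_add le_rfl (sum_le_sum fun i _ => hA i))
          (sum_le_sum fun i _ => sum_le_sum fun j _ => hB i j)
    _ = (1 + l * C + l * l * C) * ∏ i, (H i : ℝ) := by
        simp only [sum_const, card_univ, Fintype.card_fin, nsmul_eq_mul]
        ring

end Pool.Agent.P8H89.FE
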